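import Pool.Agent.Helper13_Conc.Basic

/-!
# Tools for the polylogarithmic linear arboricity bound (helper13)

Counting form on `V → α` (uniform measure), `mean f` is the average of `f`.

* `Dep W f`: `f` depends only on the coordinates in `W`; `mean_mul_dep`, `mean_prod_dep`:
  independence for disjoint blocks.
* `T1`, `T2`: upper and lower tails of sums of independent functions with values in `[0, b]`.
* `mcdB_upper`, `mcdB_lower`, `mcdB_abs`: McDiarmid's inequality for `α = Bool` with the sharp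
  constant: `a * ∑ c² ≤ 2 t²` gives proportion at most `exp (-a)`.
* `avd`: avoiding prescribed values.
* `card_filter_or`: union bound; `mean_coord`, `mean_coord₂`: means of indicators.
-/

set_option autoImplicit false
set_option linter.unusedVariables false
set_option linter.unusedSectionVars false

open scoped BigOperators

namespace Pool.Agent.Helper13_Conc

section indep

variable {V α : Type*} [Fintype V] [DecidableEq V] [Fintype α] [Nonempty α]

/-- `f` depends only on the coordinates in `W` -/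
def Dep {β : Type*} (W : Finset V) (f : (V → α) → β) : Prop :=
  ∀ ω ω' : V → α, (∀ v ∈ W, ω v = ω' v) → f ω = f ω'

theorem Dep.mono {β : Type*} {W W' : Finset V} (h : W ⊆ W') {f : (V → α) → β} (hf : Dep W f) :
    Dep W' f := fun ω ω' hω => hf ω ω' fun v hv => hω v (h hv)

theorem Dep.comp {β γ : Type*} {W : Finset V} {f : (V → α) → β} (hf : Dep W f) (g : β → γ) :
    Dep W (fun ω => g (f ω)) := fun ω ω' hω => congrArg g (hf ω ω' hω)

theorem Dep.const {β : Type*} (W : Finset V) (b : β) : Dep W (fun _ : V → α => b) :=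
  fun _ _ _ => rfl

/-- independence of functions of disjoint blocks -/
theorem mean_mul_dep {W W' : Finset V} (h : Disjoint W W') {f g : (V → α) → ℝ}
    (hf : Dep W f) (hg : Dep W' g) : mean (fun ω => f ω * g ω) = mean f * mean g := by
  classical
  have key : ∑ p : (V → α) × (V → α), f p.1 * g p.1 =
      ∑ p : (V → α) × (V → α), f p.1 * g p.2 := by
    refine Finset.sum_nbij' (fun p => (W.piecewise p.1 p.2, W.piecewise p.2 p.1))
      (fun p => (W.piecewise p.1 p.2, W.piecewise p.2 p.1)) ?_ ?_ ?_ ?_ ?_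
    · intro p _
      exact Finset.mem_univ _
    · intro p _
      exact Finset.mem_univ _
    · rintro ⟨ω, ω'⟩ _
      simp only [Prod.mk.injEq]
      constructor <;> (funext v; by_cases hv : v ∈ W <;> simp [hv])
    · rintro ⟨ω, ω'⟩ _
      simp only [Prod.mk.injEq]
      constructor <;> (funext v; by_cases hv : v ∈ W <;> simp [hv])
    · rintro ⟨ω, ω'⟩ _
      have h1 : f (W.piecewise ω ω') = f ω := hf _ _ fun v hv => by simp [hv]
      have h2 : g (W.piecewise ω' ω) = g ω := hg _ _ fun v hv => by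
        have : v ∉ W := fun h' => (Finset.disjoint_left.1 h h') hv
        simp [this]
      show f ω * g ω = f (W.piecewise ω ω') * g (W.piecewise ω' ω)
      rw [h1, h2]
  have e1 : ∑ p : (V → α) × (V → α), f p.1 * g p.1 =
      (∑ ω, f ω * g ω) * Fintype.card (V → α) := by
    rw [Fintype.sum_prod_type, Finset.sum_mul]
    refine Finset.sum_congr rfl fun ω _ => ?_
    show ∑ _y : V → α, f ω * g ω = _
    rw [Finset.sum_const, Finset.card_univ, nsmul_eq_mul, mul_comm]
  have e2 : ∑ p : (V → α) × (V → α), f p.1 * g p.2 = (∑ ω, f ω) * ∑ ω, g ω := by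
    rw [Fintype.sum_prod_type, Finset.sum_mul_sum]
  rw [e1, e2] at key
  have hΩ := card_pos' (V := V) (α := α)
  rw [mean, mean, mean, div_mul_div_comm, ← key, div_eq_div_iff hΩ.ne' (mul_pos hΩ hΩ).ne']
  ring

theorem Dep.prod {J : Type*} {W : Finset V} (s : Finset J) {f : J → (V → α) → ℝ}
    (hf : ∀ j ∈ s, Dep W (f j)) : Dep W (fun ω => ∏ j ∈ s, f j ω) :=
  fun ω ω' h => Finset.prod_congr rfl fun j hj => hf j hj ω ω' h

theorem mean_prod_dep {J : Type*} (s : Finset J) (B : J → Finset V)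
    (hB : ∀ i ∈ s, ∀ j ∈ s, i ≠ j → Disjoint (B i) (B j)) (f : J → (V → α) → ℝ)
    (hf : ∀ j ∈ s, Dep (B j) (f j)) :
    mean (fun ω => ∏ j ∈ s, f j ω) = ∏ j ∈ s, mean (f j) := by
  classical
  induction s using Finset.induction_on with
  | empty =>
    simp only [Finset.prod_empty]
    exact mean_const 1
  | insert a s ha ih =>
    have hs : ∀ i ∈ s, ∀ j ∈ s, i ≠ j → Disjoint (B i) (B j) := fun i hi j hj =>
      hB i (Finset.mem_insert_of_mem hi) j (Finset.mem_insert_of_mem hj)
    have h1 : mean (fun ω => f a ω * ∏ j ∈ s, f j ω) =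
        mean (f a) * mean (fun ω => ∏ j ∈ s, f j ω) := by
      refine mean_mul_dep (W := B a) (W' := s.biUnion B) ?_ (hf a (Finset.mem_insert_self _ _)) ?_
      · rw [Finset.disjoint_biUnion_right]
        intro j hj
        refine hB a (Finset.mem_insert_self _ _) j (Finset.mem_insert_of_mem hj) ?_
        rintro rfl
        exact ha hj
      · exact Dep.prod s fun j hj => (hf j (Finset.mem_insert_of_mem hj)).mono
          (Finset.subset_biUnion_of_mem B hj)
    rw [Finset.prod_insert ha, ← ih hs fun j hj => hf j (Finset.mem_insert_of_mem hj), ← h1]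
    congr 1
    funext ω
    rw [Finset.prod_insert ha]

theorem mean_nonneg {f : (V → α) → ℝ} (h : ∀ ω, 0 ≤ f ω) : 0 ≤ mean f :=
  div_nonneg (Finset.sum_nonneg fun ω _ => h ω) (Nat.cast_nonneg _)

theorem sum_eq_mean (f : (V → α) → ℝ) : ∑ ω, f ω = (Fintype.card (V → α) : ℝ) * mean f := by
  rw [mean, mul_div_cancel₀ _ (card_pos' (V := V) (α := α)).ne']

/-- **T1**: upper tail -/
theorem T1 {J : Type*} (s : Finset J) (B : J → Finset V)
    (hB : ∀ i ∈ s, ∀ j ∈ s, i ≠ j → Disjoint (B i) (B j)) (f : J → (V → α) → ℝ)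
    (hf : ∀ j ∈ s, Dep (B j) (f j)) (b : ℝ) (hb : 0 < b) (h0 : ∀ j ∈ s, ∀ ω, 0 ≤ f j ω)
    (h1 : ∀ j ∈ s, ∀ ω, f j ω ≤ b) (mu e t : ℝ) (hmu : ∑ j ∈ s, mean (f j) ≤ mu)
    (he0 : 0 ≤ e) (he1 : e ≤ 1) (P : (V → α) → Prop) [DecidablePred P]
    (hP : ∀ ω, P ω → (1 + e) * mu + t ≤ ∑ j ∈ s, f j ω) :
    ((Finset.univ.filter P).card : ℝ) ≤ Real.exp (-(e * t / b)) * Fintype.card (V → α) := by
  have hE0 : 0 ≤ Real.exp e - 1 := by
    have := Real.add_one_le_exp e
    linarith
  have hE1 : Real.exp e - 1 ≤ e + e ^ 2 := by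
    have := (abs_le.1 (Real.abs_exp_sub_one_sub_id_le (x := e) (by rw [abs_of_nonneg he0]; exact he1))).2
    linarith
  -- one factor
  have h2 : ∀ j ∈ s, mean (fun ω => Real.exp (e / b * f j ω)) ≤
      Real.exp (mean (f j) * ((Real.exp e - 1) / b)) := by
    intro j hj
    have h3 : ∀ ω, Real.exp (e / b * f j ω) ≤ 1 + (Real.exp e - 1) / b * f j ω := by
      intro ω
      have hx0 : 0 ≤ f j ω / b := div_nonneg (h0 j hj ω) hb.le
      have hx1 : f j ω / b ≤ 1 := (div_le_one hb).2 (h1 j hj ω)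
      have hc := convexOn_exp.2 (Set.mem_univ (0 : ℝ)) (Set.mem_univ e)
        (show 0 ≤ 1 - f j ω / b by linarith) hx0 (by ring)
      simp only [smul_eq_mul, mul_zero, zero_add, Real.exp_zero, mul_one] at hc
      have e1 : f j ω / b * e = e / b * f j ω := by ring
      rw [e1] at hc
      refine hc.trans (le_of_eq ?_)
      ring
    have h4 : mean (fun ω => Real.exp (e / b * f j ω)) ≤
        1 + (Real.exp e - 1) / b * mean (f j) := by
      refine (mean_mono h3).trans (le_of_eq ?_)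
      rw [mean_add, mean_const, mean_mul_left]
    refine h4.trans ?_
    have := Real.add_one_le_exp (mean (f j) * ((Real.exp e - 1) / b))
    linarith
  have h5 : mean (fun ω => Real.exp (e / b * ∑ j ∈ s, f j ω)) ≤
      Real.exp (mu * (e + e ^ 2) / b) := by
    have e1 : (fun ω : V → α => Real.exp (e / b * ∑ j ∈ s, f j ω)) =
        fun ω => ∏ j ∈ s, Real.exp (e / b * f j ω) := by
      funext ω
      rw [Finset.mul_sum, Real.exp_sum]
    rw [e1, mean_prod_dep s B hB (fun j ω => Real.exp (e / b * f j ω))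
      (fun j hj => (hf j hj).comp fun x => Real.exp (e / b * x))]
    refine (Finset.prod_le_prod (fun j _ => mean_nonneg fun ω => (Real.exp_pos _).le) h2).trans ?_
    rw [← Real.exp_sum, Real.exp_le_exp, ← Finset.sum_mul]
    have hm0 : 0 ≤ ∑ j ∈ s, mean (f j) := Finset.sum_nonneg fun j hj => mean_nonneg (h0 j hj)
    have h6 : (∑ j ∈ s, mean (f j)) * ((Real.exp e - 1) / b) ≤ mu * ((Real.exp e - 1) / b) :=
      mul_le_mul_of_nonneg_right hmu (div_nonneg hE0 hb.le)
    have h7 : mu * ((Real.exp e - 1) / b) ≤ mu * ((e + e ^ 2) / b) :=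
      mul_le_mul_of_nonneg_left (div_le_div_of_nonneg_right hE1 hb.le) (hm0.trans hmu)
    calc _ ≤ mu * ((e + e ^ 2) / b) := h6.trans h7
      _ = mu * (e + e ^ 2) / b := by ring
  have h8 : ∑ ω : V → α, Real.exp (e / b * ∑ j ∈ s, f j ω) ≤ (Fintype.card (V → α) : ℝ) *
      Real.exp (mu * (e + e ^ 2) / b) := by
    rw [sum_eq_mean]
    exact mul_le_mul_of_nonneg_left h5 (Nat.cast_nonneg _)
  have h9 := markov (fun ω => ∑ j ∈ s, f j ω) (e / b) (e / b * ((1 + e) * mu + t)) _ h8 P
    fun ω hω => mul_le_mul_of_nonneg_left (hP ω hω) (div_nonneg he0 hb.le)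
  have e2 : mu * (e + e ^ 2) / b - e / b * ((1 + e) * mu + t) = -(e * t / b) := by
    field_simp
    ring
  rwa [e2] at h9

/-- **T2**: lower tail -/
theorem T2 {J : Type*} (s : Finset J) (B : J → Finset V)
    (hB : ∀ i ∈ s, ∀ j ∈ s, i ≠ j → Disjoint (B i) (B j)) (f : J → (V → α) → ℝ)
    (hf : ∀ j ∈ s, Dep (B j) (f j)) (b : ℝ) (hb : 0 < b) (h0 : ∀ j ∈ s, ∀ ω, 0 ≤ f j ω)
    (h1 : ∀ j ∈ s, ∀ ω, f j ω ≤ b) (mu e t : ℝ) (hmu0 : 0 ≤ mu)
    (hmu : mu ≤ ∑ j ∈ s, mean (f j)) (he0 : 0 ≤ e) (he1 : e ≤ 1) (P : (V → α) → Prop)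
    [DecidablePred P] (hP : ∀ ω, P ω → ∑ j ∈ s, f j ω ≤ (1 - e) * mu - t) :
    ((Finset.univ.filter P).card : ℝ) ≤
      Real.exp (-(e / b * (e * mu / 2 + t))) * Fintype.card (V → α) := by
  have hE1 : e - e ^ 2 / 2 ≤ 1 - Real.exp (-e) := by
    have h2 := Real.quadratic_le_exp_of_nonneg he0
    have h3 : 0 < 1 - e + e ^ 2 / 2 := by nlinarith
    have h4 : Real.exp (-e) ≤ 1 - e + e ^ 2 / 2 := by
      rw [Real.exp_neg, inv_le_iff_one_le_mul₀ (Real.exp_pos e)]
      have h5 : (1 - e + e ^ 2 / 2) * (1 + e + e ^ 2 / 2) ≤ (1 - e + e ^ 2 / 2) * Real.exp e :=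
        mul_le_mul_of_nonneg_left h2 h3.le
      have h6 : (1 - e + e ^ 2 / 2) * (1 + e + e ^ 2 / 2) = 1 + e ^ 4 / 4 := by ring
      have h7 : 0 ≤ e ^ 4 / 4 := by positivity
      linarith
    linarith
  have hE0 : 0 ≤ 1 - Real.exp (-e) := by
    have : 0 ≤ e - e ^ 2 / 2 := by nlinarith
    linarith
  have h2 : ∀ j ∈ s, mean (fun ω => Real.exp (-(e / b) * f j ω)) ≤
      Real.exp (mean (f j) * (-((1 - Real.exp (-e)) / b))) := by
    intro j hj
    have h3 : ∀ ω, Real.exp (-(e / b) * f j ω) ≤ 1 + (-((1 - Real.exp (-e)) / b)) * f j ω := by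
      intro ω
      have hx0 : 0 ≤ f j ω / b := div_nonneg (h0 j hj ω) hb.le
      have hx1 : f j ω / b ≤ 1 := (div_le_one hb).2 (h1 j hj ω)
      have hc := convexOn_exp.2 (Set.mem_univ (0 : ℝ)) (Set.mem_univ (-e))
        (show 0 ≤ 1 - f j ω / b by linarith) hx0 (by ring)
      simp only [smul_eq_mul, mul_zero, zero_add, Real.exp_zero, mul_one] at hc
      have e1 : f j ω / b * -e = -(e / b) * f j ω := by ring
      rw [e1] at hc
      refine hc.trans (le_of_eq ?_)
      ring
    have h4 : mean (fun ω => Real.exp (-(e / b) * f j ω)) ≤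
        1 + (-((1 - Real.exp (-e)) / b)) * mean (f j) := by
      refine (mean_mono h3).trans (le_of_eq ?_)
      rw [mean_add, mean_const, mean_mul_left]
    refine h4.trans ?_
    have := Real.add_one_le_exp (mean (f j) * (-((1 - Real.exp (-e)) / b)))
    linarith
  have h5 : mean (fun ω => Real.exp (-(e / b) * ∑ j ∈ s, f j ω)) ≤
      Real.exp (-(mu * (e - e ^ 2 / 2) / b)) := by
    have e1 : (fun ω : V → α => Real.exp (-(e / b) * ∑ j ∈ s, f j ω)) =
        fun ω => ∏ j ∈ s, Real.exp (-(e / b) * f j ω) := by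
      funext ω
      rw [Finset.mul_sum, Real.exp_sum]
    rw [e1, mean_prod_dep s B hB (fun j ω => Real.exp (-(e / b) * f j ω))
      (fun j hj => (hf j hj).comp fun x => Real.exp (-(e / b) * x))]
    refine (Finset.prod_le_prod (fun j _ => mean_nonneg fun ω => (Real.exp_pos _).le) h2).trans ?_
    rw [← Real.exp_sum, Real.exp_le_exp, ← Finset.sum_mul, mul_neg, neg_le_neg_iff]
    have h6 : mu * ((1 - Real.exp (-e)) / b) ≤
        (∑ j ∈ s, mean (f j)) * ((1 - Real.exp (-e)) / b) :=
      mul_le_mul_of_nonneg_right hmu (div_nonneg hE0 hb.le)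
    have h7 : mu * ((e - e ^ 2 / 2) / b) ≤ mu * ((1 - Real.exp (-e)) / b) :=
      mul_le_mul_of_nonneg_left (div_le_div_of_nonneg_right hE1 hb.le) hmu0
    calc mu * (e - e ^ 2 / 2) / b = mu * ((e - e ^ 2 / 2) / b) := by ring
      _ ≤ _ := h7.trans h6
  have h8 : ∑ ω : V → α, Real.exp (-(e / b) * ∑ j ∈ s, f j ω) ≤ (Fintype.card (V → α) : ℝ) *
      Real.exp (-(mu * (e - e ^ 2 / 2) / b)) := by
    rw [sum_eq_mean]
    exact mul_le_mul_of_nonneg_left h5 (Nat.cast_nonneg _)
  have h9 := markov (fun ω => ∑ j ∈ s, f j ω) (-(e / b)) (-(e / b) * ((1 - e) * mu - t)) _ h8 P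
    fun ω hω => mul_le_mul_of_nonpos_left (hP ω hω) (neg_nonpos.2 (div_nonneg he0 hb.le))
  have e2 : -(mu * (e - e ^ 2 / 2) / b) - -(e / b) * ((1 - e) * mu - t) =
      -(e / b * (e * mu / 2 + t)) := by
    field_simp
    ring
  rwa [e2] at h9

/-- union bound -/
theorem card_filter_or (P Q : (V → α) → Prop) [DecidablePred P] [DecidablePred Q]
    {R : (V → α) → Prop} [DecidablePred R] (h : ∀ ω, R ω → P ω ∨ Q ω) :
    ((Finset.univ.filter R).card : ℝ) ≤
      (Finset.univ.filter P).card + (Finset.univ.filter Q).card := by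
  classical
  have h1 : Finset.univ.filter R ⊆ Finset.univ.filter P ∪ Finset.univ.filter Q := by
    intro ω hω
    rw [Finset.mem_union, Finset.mem_filter, Finset.mem_filter]
    rcases h ω (Finset.mem_filter.1 hω).2 with h' | h'
    · exact Or.inl ⟨Finset.mem_univ _, h'⟩
    · exact Or.inr ⟨Finset.mem_univ _, h'⟩
  exact_mod_cast (Finset.card_le_card h1).trans (Finset.card_union_le _ _)

theorem card_filter_eq_mean (P : (V → α) → Prop) [DecidablePred P] :
    ((Finset.univ.filter P).card : ℝ) =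
      mean (fun ω => if P ω then (1 : ℝ) else 0) * Fintype.card (V → α) := by
  rw [mean, div_mul_cancel₀ _ (card_pos' (V := V) (α := α)).ne', Finset.sum_ite,
    Finset.sum_const_zero, add_zero, Finset.sum_const, nsmul_eq_mul, mul_one]

/-- the mean of a function of one coordinate -/
theorem mean_coord (v : V) (g : α → ℝ) :
    mean (fun ω : V → α => g (ω v)) = (∑ a, g a) / Fintype.card α := by
  classical
  -- split off the coordinate v
  have h := Fintype.sum_equiv (Equiv.piSplitAt v fun _ : V => α) (fun ω : V → α => g (ω v))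
    (fun p => g p.1) (fun ω => rfl)
  have hc : (Fintype.card (V → α) : ℝ) =
      Fintype.card α * Fintype.card ({j : V // j ≠ v} → α) := by
    rw [Fintype.card_congr (Equiv.piSplitAt v fun _ : V => α), Fintype.card_prod]
    push_cast
    rfl
  have hN : (0 : ℝ) < Fintype.card ({j : V // j ≠ v} → α) := by
    exact_mod_cast Fintype.card_pos
  rw [mean, h, Fintype.sum_prod_type, hc]
  simp only [Finset.sum_const, Finset.card_univ, nsmul_eq_mul]
  rw [← Finset.mul_sum]
  rw [mul_comm, mul_div_mul_right _ _ hN.ne']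

/-- **AVD**: avoiding prescribed values -/
theorem avd [DecidableEq α] (O : Finset V) (s : V → α) (P : (V → α) → Prop) [DecidablePred P]
    (hP : ∀ ω, P ω → ∀ u ∈ O, ω u ≠ s u) :
    ((Finset.univ.filter P).card : ℝ) ≤
      Real.exp (-((O.card : ℝ) / Fintype.card α)) * Fintype.card (V → α) := by
  have hN0 : (0 : ℝ) < Fintype.card α := by exact_mod_cast Fintype.card_pos
  have h1 : mean (fun ω : V → α => ∏ u ∈ O, (if ω u = s u then (0 : ℝ) else 1)) ≤
      Real.exp (-((O.card : ℝ) / Fintype.card α)) := by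
    rw [mean_prod_dep O (fun u => {u}) (fun i _ j _ hij => by simpa using hij)
      (fun u ω => if ω u = s u then (0 : ℝ) else 1)
      (fun u _ ω ω' h => by
        show (if ω u = s u then (0 : ℝ) else 1) = if ω' u = s u then (0 : ℝ) else 1
        rw [h u (Finset.mem_singleton_self u)])]
    have h2 : ∀ u ∈ O, mean (fun ω : V → α => if ω u = s u then (0 : ℝ) else 1) ≤
        Real.exp (-(1 / Fintype.card α)) := by
      intro u _
      rw [mean_coord u (fun a => if a = s u then (0 : ℝ) else 1)]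
      have e : ∑ a, (if a = s u then (0 : ℝ) else 1) = Fintype.card α - 1 := by
        have e1 : ∀ a, (if a = s u then (0 : ℝ) else 1) = 1 - (if a = s u then 1 else 0) := by
          intro a
          split_ifs <;> ring
        rw [Finset.sum_congr rfl fun a _ => e1 a, Finset.sum_sub_distrib, Finset.sum_const,
          Finset.card_univ, nsmul_eq_mul, mul_one, Finset.sum_ite_eq' Finset.univ (s u),
          if_pos (Finset.mem_univ _)]
      rw [e]
      have := Real.add_one_le_exp (-(1 / (Fintype.card α : ℝ)))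
      refine le_trans (le_of_eq ?_) this
      field_simp
      ring
    refine (Finset.prod_le_prod (fun u _ => mean_nonneg fun ω => by split_ifs <;> norm_num)
      h2).trans (le_of_eq ?_)
    rw [Finset.prod_const, ← Real.exp_nat_mul]
    congr 1
    ring
  rw [card_filter_eq_mean]
  refine mul_le_mul_of_nonneg_right (le_trans (mean_mono ?_) h1) (Nat.cast_nonneg _)
  intro ω
  split_ifs with h
  · rw [Finset.prod_congr rfl fun u hu => if_neg (hP ω h u hu), Finset.prod_const_one]
  · exact Finset.prod_nonneg fun u _ => by split_ifs <;> norm_num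

end indep

/-! ### McDiarmid's inequality for coins -/

section bool

theorem mgf_bool (h : Bool → ℝ) (c : ℝ) (hc : ∀ a b, |h a - h b| ≤ c) (y : ℝ) :
    ∑ a, Real.exp (y * h a) ≤ 2 * Real.exp (y * ((∑ b, h b) / 2) + y ^ 2 * c ^ 2 / 8) := by
  have e1 : ∑ a, Real.exp (y * h a) = 2 * (Real.exp (y * ((∑ b, h b) / 2)) *
      Real.cosh (y * (h true - h false) / 2)) := by
    rw [Fintype.sum_bool, Fintype.sum_bool, Real.cosh_eq]
    have a1 : Real.exp (y * h true) = Real.exp (y * ((h true + h false) / 2)) *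
        Real.exp (y * (h true - h false) / 2) := by
      rw [← Real.exp_add]; congr 1; ring
    have a2 : Real.exp (y * h false) = Real.exp (y * ((h true + h false) / 2)) *
        Real.exp (-(y * (h true - h false) / 2)) := by
      rw [← Real.exp_add]; congr 1; ring
    rw [a1, a2]
    ring
  rw [e1, Real.exp_add]
  refine mul_le_mul_of_nonneg_left (mul_le_mul_of_nonneg_left ?_ (Real.exp_pos _).le) (by norm_num)
  refine (Real.cosh_le_exp_half_sq _).trans (Real.exp_le_exp.2 ?_)
  have h4 : (h true - h false) ^ 2 ≤ c ^ 2 := by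
    rw [← sq_abs (h true - h false)]
    exact pow_le_pow_left₀ (abs_nonneg _) (hc true false) 2
  have h5 := mul_le_mul_of_nonneg_left h4 (sq_nonneg y)
  have e2 : (y * (h true - h false) / 2) ^ 2 / 2 = y ^ 2 * (h true - h false) ^ 2 / 8 := by ring
  rw [e2]
  linarith

theorem mgfB_fin : ∀ (n : ℕ) (f : (Fin n → Bool) → ℝ) (c : Fin n → ℝ),
    (∀ v ω ω', (∀ u, u ≠ v → ω u = ω' u) → |f ω - f ω'| ≤ c v) → ∀ y : ℝ,
    ∑ ω, Real.exp (y * f ω) ≤ (2 : ℝ) ^ n *
      Real.exp (y * ((∑ ω, f ω) / (2 : ℝ) ^ n) + y ^ 2 * (∑ v, c v ^ 2) / 8) := by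
  intro n
  induction n with
  | zero =>
    intro f c _ y
    simp
  | succ n ih =>
    intro f c hc y
    have split : ∀ F : (Fin (n + 1) → Bool) → ℝ,
        ∑ ω, F ω = ∑ ω' : Fin n → Bool, ∑ a, F (Fin.cons a ω') := by
      intro F
      rw [← (Fin.consEquiv (fun _ : Fin (n + 1) => Bool)).sum_comp, Fintype.sum_prod_type,
        Finset.sum_comm]
      rfl
    set g : (Fin n → Bool) → ℝ := fun ω' => (∑ a, f (Fin.cons a ω')) / 2 with hg
    have hgc : ∀ v ω ω', (∀ u, u ≠ v → ω u = ω' u) → |g ω - g ω'| ≤ c (Fin.succ v) := by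
      intro v ω ω' hω
      have e : g ω - g ω' = (∑ a, (f (Fin.cons a ω) - f (Fin.cons a ω'))) / 2 := by
        rw [hg, Finset.sum_sub_distrib]
        ring
      rw [e, abs_div, abs_of_pos (two_pos : (0 : ℝ) < 2), div_le_iff₀ two_pos]
      calc |∑ a, (f (Fin.cons a ω) - f (Fin.cons a ω'))|
          ≤ ∑ a, |f (Fin.cons a ω) - f (Fin.cons a ω')| := Finset.abs_sum_le_sum_abs _ _
        _ ≤ ∑ _a : Bool, c (Fin.succ v) := by
            refine Finset.sum_le_sum fun a _ => hc (Fin.succ v) _ _ ?_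
            intro u hu
            induction u using Fin.cases with
            | zero => rfl
            | succ u =>
              simp only [Fin.cons_succ]
              exact hω u fun h => hu (by rw [h])
        _ = c (Fin.succ v) * 2 := by
            rw [Finset.sum_const, Finset.card_univ, Fintype.card_bool, nsmul_eq_mul]
            push_cast
            ring
    have h1 : ∀ ω' : Fin n → Bool, ∑ a, Real.exp (y * f (Fin.cons a ω')) ≤
        2 * Real.exp (y ^ 2 * c 0 ^ 2 / 8) * Real.exp (y * g ω') := by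
      intro ω'
      have := mgf_bool (fun a => f (Fin.cons a ω')) (c 0) (by
        intro a b
        refine hc 0 _ _ ?_
        intro u hu
        induction u using Fin.cases with
        | zero => exact absurd rfl hu
        | succ u => rfl) y
      refine this.trans (le_of_eq ?_)
      rw [Real.exp_add]
      show 2 * (Real.exp (y * g ω') * Real.exp (y ^ 2 * c 0 ^ 2 / 8)) = _
      ring
    have h2 := ih g (fun v => c (Fin.succ v)) hgc y
    have h3 : (∑ ω', g ω') / (2 : ℝ) ^ n = (∑ ω, f ω) / (2 : ℝ) ^ (n + 1) := by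
      rw [split f, hg, ← Finset.sum_div, pow_succ]
      field_simp
    rw [split]
    calc ∑ ω' : Fin n → Bool, ∑ a, Real.exp (y * f (Fin.cons a ω'))
        ≤ ∑ ω' : Fin n → Bool, 2 * Real.exp (y ^ 2 * c 0 ^ 2 / 8) * Real.exp (y * g ω') :=
          Finset.sum_le_sum fun ω' _ => h1 ω'
      _ = 2 * Real.exp (y ^ 2 * c 0 ^ 2 / 8) * ∑ ω' : Fin n → Bool, Real.exp (y * g ω') := by
          rw [Finset.mul_sum]
      _ ≤ 2 * Real.exp (y ^ 2 * c 0 ^ 2 / 8) * ((2 : ℝ) ^ n *
          Real.exp (y * ((∑ ω', g ω') / (2 : ℝ) ^ n) + y ^ 2 * (∑ v, c (Fin.succ v) ^ 2) / 8)) :=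
          mul_le_mul_of_nonneg_left h2 (by positivity)
      _ = (2 : ℝ) ^ (n + 1) * Real.exp (y * ((∑ ω, f ω) / (2 : ℝ) ^ (n + 1)) +
            y ^ 2 * (∑ v, c v ^ 2) / 8) := by
          rw [h3, Fin.sum_univ_succ]
          have e : y * ((∑ ω, f ω) / (2 : ℝ) ^ (n + 1)) +
              y ^ 2 * (c 0 ^ 2 + ∑ i : Fin n, c i.succ ^ 2) / 8
            = y ^ 2 * c 0 ^ 2 / 8 + (y * ((∑ ω, f ω) / (2 : ℝ) ^ (n + 1)) +
              y ^ 2 * (∑ i : Fin n, c i.succ ^ 2) / 8) := by ring
          rw [e, Real.exp_add (y ^ 2 * c 0 ^ 2 / 8)]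
          ring

variable {V : Type*} [Fintype V] [DecidableEq V]

theorem mgfB (f : (V → Bool) → ℝ) (c : V → ℝ)
    (hc : ∀ v ω ω', (∀ u, u ≠ v → ω u = ω' u) → |f ω - f ω'| ≤ c v) (y : ℝ) :
    ∑ ω, Real.exp (y * f ω) ≤ (Fintype.card (V → Bool) : ℝ) *
      Real.exp (y * mean f + y ^ 2 * (∑ v, c v ^ 2) / 8) := by
  classical
  obtain ⟨e⟩ := Fintype.truncEquivFin V
  set n := Fintype.card V with hn
  let E : (Fin n → Bool) ≃ (V → Bool) := Equiv.arrowCongr e.symm (Equiv.refl Bool)
  have hE : ∀ (ω : Fin n → Bool) (v : V), E ω v = ω (e v) := fun ω v => rfl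
  have h := mgfB_fin n (fun ω => f (E ω)) (fun i => c (e.symm i)) (by
    intro v ω ω' hω
    refine hc (e.symm v) _ _ ?_
    intro u hu
    rw [hE, hE]
    exact hω (e u) fun h => hu (by rw [← h, Equiv.symm_apply_apply])) y
  have h1 : (Fintype.card (V → Bool) : ℝ) = (2 : ℝ) ^ n := by
    rw [Fintype.card_fun, Fintype.card_bool]
    push_cast
    rfl
  rw [E.sum_comp (fun ω => Real.exp (y * f ω)), E.sum_comp (fun ω => f ω),
    e.symm.sum_comp (fun v => c v ^ 2)] at h
  rw [mean, h1]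
  exact h

/-- **McDiarmid's inequality** for coins, upper tail: if `a * ∑ c² ≤ 2 t²`, then the proportion
of `f ≥ mean f + t` is at most `exp (-a)` -/
theorem mcdB_upper (f : (V → Bool) → ℝ) (c : V → ℝ)
    (hc : ∀ v ω ω', (∀ u, u ≠ v → ω u = ω' u) → |f ω - f ω'| ≤ c v) (a t : ℝ)
    (ha : a * ∑ v, c v ^ 2 ≤ 2 * t ^ 2) (ht : 0 < t) (P : (V → Bool) → Prop) [DecidablePred P]
    (hP : ∀ ω, P ω → mean f + t ≤ f ω) :
    ((Finset.univ.filter P).card : ℝ) ≤ Real.exp (-a) * Fintype.card (V → Bool) := by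
  rcases le_or_gt a 0 with h0 | h0
  · have h1 : ((Finset.univ.filter P).card : ℝ) ≤ Fintype.card (V → Bool) := by
      exact_mod_cast Finset.card_le_univ _
    have h2 : 1 ≤ Real.exp (-a) := Real.one_le_exp (by linarith)
    calc _ ≤ 1 * (Fintype.card (V → Bool) : ℝ) := by rw [one_mul]; exact h1
      _ ≤ _ := mul_le_mul_of_nonneg_right h2 (Nat.cast_nonneg _)
  · -- y = 2 a / t
    set y : ℝ := 2 * a / t with hy
    have hy0 : 0 ≤ y := by positivity
    have h2 : ∑ ω, Real.exp (y * f ω) ≤ (Fintype.card (V → Bool) : ℝ) *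
        Real.exp (y * mean f + a) := by
      refine (mgfB f c hc y).trans (mul_le_mul_of_nonneg_left (Real.exp_le_exp.2 ?_)
        (Nat.cast_nonneg _))
      have e1 : y ^ 2 * (∑ v, c v ^ 2) / 8 = a * (a * ∑ v, c v ^ 2) / (2 * t ^ 2) := by
        rw [hy]
        field_simp
        ring
      have h3 : a * (a * ∑ v, c v ^ 2) / (2 * t ^ 2) ≤ a := by
        rw [div_le_iff₀ (by positivity)]
        exact mul_le_mul_of_nonneg_left ha h0.le
      linarith
    have h3 := markov f y (y * (mean f + t)) _ h2 P fun ω hω =>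
      mul_le_mul_of_nonneg_left (hP ω hω) hy0
    have e : y * mean f + a - y * (mean f + t) = -a := by
      rw [hy]
      field_simp
      ring
    rwa [e] at h3

/-- lower tail -/
theorem mcdB_lower (f : (V → Bool) → ℝ) (c : V → ℝ)
    (hc : ∀ v ω ω', (∀ u, u ≠ v → ω u = ω' u) → |f ω - f ω'| ≤ c v) (a t : ℝ)
    (ha : a * ∑ v, c v ^ 2 ≤ 2 * t ^ 2) (ht : 0 < t) (P : (V → Bool) → Prop) [DecidablePred P]
    (hP : ∀ ω, P ω → f ω ≤ mean f - t) :
    ((Finset.univ.filter P).card : ℝ) ≤ Real.exp (-a) * Fintype.card (V → Bool) := by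
  refine mcdB_upper (fun ω => - f ω) c ?_ a t ha ht P ?_
  · intro v ω ω' h
    rw [neg_sub_neg, abs_sub_comm]
    exact hc v ω ω' h
  · intro ω hω
    rw [mean_neg]
    linarith [hP ω hω]

/-- two-sided -/
theorem mcdB_abs (f : (V → Bool) → ℝ) (c : V → ℝ)
    (hc : ∀ v ω ω', (∀ u, u ≠ v → ω u = ω' u) → |f ω - f ω'| ≤ c v) (a t : ℝ)
    (ha : a * ∑ v, c v ^ 2 ≤ 2 * t ^ 2) (ht : 0 < t) (P : (V → Bool) → Prop) [DecidablePred P]
    (hP : ∀ ω, P ω → t ≤ |f ω - mean f|) :
    ((Finset.univ.filter P).card : ℝ) ≤ 2 * Real.exp (-a) * Fintype.card (V → Bool) := by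
  classical
  have h1 := mcdB_upper f c hc a t ha ht (fun ω => mean f + t ≤ f ω) fun _ h => h
  have h2 := mcdB_lower f c hc a t ha ht (fun ω => f ω ≤ mean f - t) fun _ h => h
  have h3 := card_filter_or (fun ω => mean f + t ≤ f ω) (fun ω => f ω ≤ mean f - t) (R := P) (by
    intro ω hω
    rcases le_abs.1 (hP ω hω) with h | h
    · left; linarith
    · right; linarith)
  linarith

end bool

end Pool.Agent.Helper13_Conc
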