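import Pool.Agent.Common_LLL.Basic

/-!
# Concentration inequalities on finite product spaces, counting form (helper13)

All statements count functions `ω : V → α` (uniform measure on a finite product).

* `mcd_upper`, `mcd_lower`, `mcd_abs`: bounded differences `c v`; deviation at least `t` has
  proportion at most `exp (-t² / (2 ∑ c²))` (twice that for the absolute value).
* `count_upper`, `count_lower`: the number of `v` with `ω v ∈ B v`, mean `μ`: proportion of
  `≥ 2 μ + t` at most `exp (-t)`, proportion of `≤ μ / 2 - t` at most `exp (-t)`.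
* `lll_sum`: local lemma with the summation condition `∑_{j : v ∈ W j} x j ≤ σ` and
  `P (A i) ≤ x i * exp (-2 σ |W i|)`.
-/

set_option autoImplicit false
set_option linter.unusedVariables false
set_option linter.unusedSectionVars false

open scoped BigOperators

namespace Pool.Agent.Helper13_Conc

section one

variable {α : Type*} [Fintype α] [Nonempty α]

/-- one coordinate -/
theorem mgf_one (h : α → ℝ) (c : ℝ) (hc : ∀ a b, |h a - h b| ≤ c) (y : ℝ) :
    ∑ a, Real.exp (y * h a) ≤ (Fintype.card α : ℝ) *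
      Real.exp (y * ((∑ b, h b) / Fintype.card α) + y ^ 2 * c ^ 2 / 2) := by
  classical
  set N : ℝ := (Fintype.card α : ℝ) with hN
  have hN0 : 0 < N := by
    rw [hN]
    exact_mod_cast Fintype.card_pos
  set μ : ℝ := (∑ b, h b) / N with hμ
  -- Jensen
  have h1 : ∀ a, Real.exp (y * h a - y * μ) ≤ ∑ b, N⁻¹ * Real.exp (y * (h a - h b)) := by
    intro a
    have hj := convexOn_exp.map_sum_le (t := (Finset.univ : Finset α)) (w := fun _ => N⁻¹)
      (p := fun b => y * (h a - h b)) (fun _ _ => (inv_pos.2 hN0).le) (by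
        rw [Finset.sum_const, Finset.card_univ, nsmul_eq_mul, ← hN]
        exact mul_inv_cancel₀ hN0.ne') (fun _ _ => Set.mem_univ _)
    have e1 : ∑ b, N⁻¹ • (y * (h a - h b)) = y * h a - y * μ := by
      simp only [smul_eq_mul]
      rw [← Finset.mul_sum, ← Finset.mul_sum, Finset.sum_sub_distrib, Finset.sum_const,
        Finset.card_univ, nsmul_eq_mul, ← hN, hμ]
      field_simp
    rw [e1] at hj
    simpa only [smul_eq_mul] using hj
  -- symmetrisation
  have h2 : ∑ a, ∑ b, Real.exp (y * (h a - h b)) = ∑ a, ∑ b, Real.cosh (y * (h a - h b)) := by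
    have e : ∑ a, ∑ b, Real.exp (y * (h a - h b)) = ∑ a, ∑ b, Real.exp (-(y * (h a - h b))) := by
      rw [Finset.sum_comm]
      refine Finset.sum_congr rfl fun a _ => Finset.sum_congr rfl fun b _ => ?_
      congr 1
      ring
    have e2 : ∑ a, ∑ b, Real.cosh (y * (h a - h b)) =
        (∑ a, ∑ b, Real.exp (y * (h a - h b)) + ∑ a, ∑ b, Real.exp (-(y * (h a - h b)))) / 2 := by
      rw [← Finset.sum_add_distrib, Finset.sum_div]
      refine Finset.sum_congr rfl fun a _ => ?_
      rw [← Finset.sum_add_distrib, Finset.sum_div]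
      exact Finset.sum_congr rfl fun b _ => Real.cosh_eq _
    rw [e2, ← e]
    ring
  have h3 : ∀ a b, Real.cosh (y * (h a - h b)) ≤ Real.exp (y ^ 2 * c ^ 2 / 2) := by
    intro a b
    refine (Real.cosh_le_exp_half_sq _).trans (Real.exp_le_exp.2 ?_)
    have h4 : (h a - h b) ^ 2 ≤ c ^ 2 := by
      rw [← sq_abs (h a - h b)]
      exact pow_le_pow_left₀ (abs_nonneg _) (hc a b) 2
    rw [mul_pow]
    have h5 := mul_le_mul_of_nonneg_left h4 (sq_nonneg y)
    linarith
  have h4 : ∑ a, Real.exp (y * h a - y * μ) ≤ N * Real.exp (y ^ 2 * c ^ 2 / 2) := by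
    calc ∑ a, Real.exp (y * h a - y * μ) ≤ ∑ a, ∑ b, N⁻¹ * Real.exp (y * (h a - h b)) :=
          Finset.sum_le_sum fun a _ => h1 a
      _ = N⁻¹ * ∑ a, ∑ b, Real.exp (y * (h a - h b)) := by
          simp only [← Finset.mul_sum]
      _ = N⁻¹ * ∑ a, ∑ b, Real.cosh (y * (h a - h b)) := by rw [h2]
      _ ≤ N⁻¹ * ∑ _a : α, ∑ _b : α, Real.exp (y ^ 2 * c ^ 2 / 2) :=
          mul_le_mul_of_nonneg_left (Finset.sum_le_sum fun a _ => Finset.sum_le_sum fun b _ =>
            h3 a b) (inv_pos.2 hN0).le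
      _ = N * Real.exp (y ^ 2 * c ^ 2 / 2) := by
          simp only [Finset.sum_const, Finset.card_univ, nsmul_eq_mul, ← hN]
          field_simp
  have h5 : ∑ a, Real.exp (y * h a) = Real.exp (y * μ) * ∑ a, Real.exp (y * h a - y * μ) := by
    rw [Finset.mul_sum]
    refine Finset.sum_congr rfl fun a _ => ?_
    rw [← Real.exp_add]
    congr 1
    ring
  rw [h5, Real.exp_add]
  calc Real.exp (y * μ) * ∑ a, Real.exp (y * h a - y * μ)
      ≤ Real.exp (y * μ) * (N * Real.exp (y ^ 2 * c ^ 2 / 2)) :=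
        mul_le_mul_of_nonneg_left h4 (Real.exp_pos _).le
    _ = _ := by ring

/-- bounded differences: moment generating function, coordinates `Fin n` -/
theorem mgf_fin : ∀ (n : ℕ) (f : (Fin n → α) → ℝ) (c : Fin n → ℝ),
    (∀ v ω ω', (∀ u, u ≠ v → ω u = ω' u) → |f ω - f ω'| ≤ c v) → ∀ y : ℝ,
    ∑ ω, Real.exp (y * f ω) ≤ (Fintype.card α : ℝ) ^ n *
      Real.exp (y * ((∑ ω, f ω) / (Fintype.card α : ℝ) ^ n) + y ^ 2 * (∑ v, c v ^ 2) / 2) := by
  intro n
  induction n with
  | zero =>
    intro f c _ y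
    simp
  | succ n ih =>
    intro f c hc y
    set N : ℝ := (Fintype.card α : ℝ) with hN
    have hN0 : 0 < N := by
      rw [hN]
      exact_mod_cast Fintype.card_pos
    have split : ∀ F : (Fin (n + 1) → α) → ℝ,
        ∑ ω, F ω = ∑ ω' : Fin n → α, ∑ a, F (Fin.cons a ω') := by
      intro F
      rw [← (Fin.consEquiv (fun _ : Fin (n + 1) => α)).sum_comp, Fintype.sum_prod_type,
        Finset.sum_comm]
      rfl
    set g : (Fin n → α) → ℝ := fun ω' => (∑ a, f (Fin.cons a ω')) / N with hg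
    have hgc : ∀ v ω ω', (∀ u, u ≠ v → ω u = ω' u) → |g ω - g ω'| ≤ c (Fin.succ v) := by
      intro v ω ω' hω
      have e : g ω - g ω' = (∑ a, (f (Fin.cons a ω) - f (Fin.cons a ω'))) / N := by
        rw [hg, Finset.sum_sub_distrib]
        ring
      rw [e, abs_div, abs_of_pos hN0, div_le_iff₀ hN0]
      calc |∑ a, (f (Fin.cons a ω) - f (Fin.cons a ω'))|
          ≤ ∑ a, |f (Fin.cons a ω) - f (Fin.cons a ω')| := Finset.abs_sum_le_sum_abs _ _
        _ ≤ ∑ _a : α, c (Fin.succ v) := by
            refine Finset.sum_le_sum fun a _ => hc (Fin.succ v) _ _ ?_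
            intro u hu
            induction u using Fin.cases with
            | zero => rfl
            | succ u =>
              simp only [Fin.cons_succ]
              exact hω u fun h => hu (by rw [h])
        _ = c (Fin.succ v) * N := by
            rw [Finset.sum_const, Finset.card_univ, nsmul_eq_mul, ← hN, mul_comm]
    have h1 : ∀ ω' : Fin n → α, ∑ a, Real.exp (y * f (Fin.cons a ω')) ≤
        N * Real.exp (y ^ 2 * c 0 ^ 2 / 2) * Real.exp (y * g ω') := by
      intro ω'
      have := mgf_one (fun a => f (Fin.cons a ω')) (c 0) (by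
        intro a b
        refine hc 0 _ _ ?_
        intro u hu
        induction u using Fin.cases with
        | zero => exact absurd rfl hu
        | succ u => rfl) y
      refine this.trans (le_of_eq ?_)
      rw [Real.exp_add, ← hN]
      show N * (Real.exp (y * g ω') * Real.exp (y ^ 2 * c 0 ^ 2 / 2)) = _
      ring
    have h2 := ih g (fun v => c (Fin.succ v)) hgc y
    have h3 : (∑ ω', g ω') / N ^ n = (∑ ω, f ω) / N ^ (n + 1) := by
      rw [split f, hg, ← Finset.sum_div, pow_succ]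
      field_simp
    rw [split]
    calc ∑ ω' : Fin n → α, ∑ a, Real.exp (y * f (Fin.cons a ω'))
        ≤ ∑ ω' : Fin n → α, N * Real.exp (y ^ 2 * c 0 ^ 2 / 2) * Real.exp (y * g ω') :=
          Finset.sum_le_sum fun ω' _ => h1 ω'
      _ = N * Real.exp (y ^ 2 * c 0 ^ 2 / 2) * ∑ ω' : Fin n → α, Real.exp (y * g ω') := by
          rw [Finset.mul_sum]
      _ ≤ N * Real.exp (y ^ 2 * c 0 ^ 2 / 2) * (N ^ n *
          Real.exp (y * ((∑ ω', g ω') / N ^ n) + y ^ 2 * (∑ v, c (Fin.succ v) ^ 2) / 2)) :=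
          mul_le_mul_of_nonneg_left h2 (by positivity)
      _ = N ^ (n + 1) * Real.exp (y * ((∑ ω, f ω) / N ^ (n + 1)) +
            y ^ 2 * (∑ v, c v ^ 2) / 2) := by
          rw [h3, Fin.sum_univ_succ]
          have e : y * ((∑ ω, f ω) / N ^ (n + 1)) + y ^ 2 * (c 0 ^ 2 + ∑ i : Fin n, c i.succ ^ 2) / 2
            = y ^ 2 * c 0 ^ 2 / 2 + (y * ((∑ ω, f ω) / N ^ (n + 1)) +
              y ^ 2 * (∑ i : Fin n, c i.succ ^ 2) / 2) := by ring
          rw [e, Real.exp_add (y ^ 2 * c 0 ^ 2 / 2)]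
          ring

end one

section many

variable {V α : Type*} [Fintype V] [DecidableEq V] [Fintype α] [Nonempty α]

/-- the mean -/
noncomputable def mean (f : (V → α) → ℝ) : ℝ := (∑ ω, f ω) / Fintype.card (V → α)

theorem card_pos' : (0 : ℝ) < Fintype.card (V → α) := by
  exact_mod_cast Fintype.card_pos

theorem mean_const (a : ℝ) : mean (fun _ : V → α => a) = a := by
  rw [mean, Finset.sum_const, Finset.card_univ, nsmul_eq_mul]
  exact mul_div_cancel_left₀ a (card_pos' (V := V) (α := α)).ne'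

theorem mean_add (f g : (V → α) → ℝ) : mean (fun ω => f ω + g ω) = mean f + mean g := by
  rw [mean, Finset.sum_add_distrib, add_div]
  rfl

theorem mean_sub (f g : (V → α) → ℝ) : mean (fun ω => f ω - g ω) = mean f - mean g := by
  rw [mean, Finset.sum_sub_distrib, sub_div]
  rfl

theorem mean_mul_left (a : ℝ) (f : (V → α) → ℝ) : mean (fun ω => a * f ω) = a * mean f := by
  rw [mean, ← Finset.mul_sum, mul_div_assoc]
  rfl

theorem mean_neg (f : (V → α) → ℝ) : mean (fun ω => - f ω) = - mean f := by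
  rw [mean, Finset.sum_neg_distrib, neg_div]
  rfl

theorem mean_sum {ι : Type*} (s : Finset ι) (f : ι → (V → α) → ℝ) :
    mean (fun ω => ∑ i ∈ s, f i ω) = ∑ i ∈ s, mean (f i) := by
  rw [mean, Finset.sum_comm, Finset.sum_div]
  rfl

theorem mean_mono {f g : (V → α) → ℝ} (h : ∀ ω, f ω ≤ g ω) : mean f ≤ mean g :=
  div_le_div_of_nonneg_right (Finset.sum_le_sum fun ω _ => h ω) (card_pos' (V := V) (α := α)).le

/-- bounded differences: moment generating function -/
theorem mgf (f : (V → α) → ℝ) (c : V → ℝ)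
    (hc : ∀ v ω ω', (∀ u, u ≠ v → ω u = ω' u) → |f ω - f ω'| ≤ c v) (y : ℝ) :
    ∑ ω, Real.exp (y * f ω) ≤ (Fintype.card (V → α) : ℝ) *
      Real.exp (y * mean f + y ^ 2 * (∑ v, c v ^ 2) / 2) := by
  classical
  obtain ⟨e⟩ := Fintype.truncEquivFin V
  set n := Fintype.card V with hn
  let E : (Fin n → α) ≃ (V → α) := Equiv.arrowCongr e.symm (Equiv.refl α)
  have hE : ∀ (ω : Fin n → α) (v : V), E ω v = ω (e v) := fun ω v => rfl
  have h := mgf_fin n (fun ω => f (E ω)) (fun i => c (e.symm i)) (by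
    intro v ω ω' hω
    refine hc (e.symm v) _ _ ?_
    intro u hu
    rw [hE, hE]
    exact hω (e u) fun h => hu (by rw [← h, Equiv.symm_apply_apply])) y
  have h1 : (Fintype.card (V → α) : ℝ) = (Fintype.card α : ℝ) ^ n := by
    rw [Fintype.card_fun]
    push_cast
    rfl
  rw [E.sum_comp (fun ω => Real.exp (y * f ω)), E.sum_comp (fun ω => f ω),
    e.symm.sum_comp (fun v => c v ^ 2)] at h
  rw [mean, h1]
  exact h

/-- Markov's inequality for the exponential moment -/
theorem markov (f : (V → α) → ℝ) (y a M : ℝ) (hM : ∑ ω, Real.exp (y * f ω) ≤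
    (Fintype.card (V → α) : ℝ) * Real.exp M) (P : (V → α) → Prop) [DecidablePred P]
    (hP : ∀ ω, P ω → a ≤ y * f ω) :
    ((Finset.univ.filter P).card : ℝ) ≤ Real.exp (M - a) * Fintype.card (V → α) := by
  have h1 : ((Finset.univ.filter P).card : ℝ) * Real.exp a ≤ ∑ ω, Real.exp (y * f ω) := by
    calc ((Finset.univ.filter P).card : ℝ) * Real.exp a
        = ∑ _ω ∈ Finset.univ.filter P, Real.exp a := by
          rw [Finset.sum_const, nsmul_eq_mul]
      _ ≤ ∑ ω ∈ Finset.univ.filter P, Real.exp (y * f ω) :=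
          Finset.sum_le_sum fun ω hω => Real.exp_le_exp.2 (hP ω (Finset.mem_filter.1 hω).2)
      _ ≤ ∑ ω, Real.exp (y * f ω) :=
          Finset.sum_le_sum_of_subset_of_nonneg (Finset.filter_subset _ _)
            fun ω _ _ => (Real.exp_pos _).le
  have h2 := h1.trans hM
  rw [Real.exp_sub, div_mul_eq_mul_div, le_div_iff₀ (Real.exp_pos a)]
  linarith

/-- **McDiarmid's inequality**, upper tail -/
theorem mcd_upper (f : (V → α) → ℝ) (c : V → ℝ)
    (hc : ∀ v ω ω', (∀ u, u ≠ v → ω u = ω' u) → |f ω - f ω'| ≤ c v) (C t : ℝ)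
    (hC : ∑ v, c v ^ 2 ≤ C) (hC0 : 0 < C) (ht : 0 ≤ t) (P : (V → α) → Prop) [DecidablePred P]
    (hP : ∀ ω, P ω → mean f + t ≤ f ω) :
    ((Finset.univ.filter P).card : ℝ) ≤
      Real.exp (-(t ^ 2 / (2 * C))) * Fintype.card (V → α) := by
  set y : ℝ := t / C with hy
  have hy0 : 0 ≤ y := div_nonneg ht hC0.le
  have h1 := mgf f c hc y
  have h2 : ∑ ω, Real.exp (y * f ω) ≤ (Fintype.card (V → α) : ℝ) *
      Real.exp (y * mean f + y ^ 2 * C / 2) := by
    refine h1.trans (mul_le_mul_of_nonneg_left (Real.exp_le_exp.2 ?_)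
      (card_pos' (V := V) (α := α)).le)
    have := mul_le_mul_of_nonneg_left hC (sq_nonneg y)
    linarith
  have h3 := markov f y (y * (mean f + t)) _ h2 P fun ω hω =>
    mul_le_mul_of_nonneg_left (hP ω hω) hy0
  have e : y * mean f + y ^ 2 * C / 2 - y * (mean f + t) = -(t ^ 2 / (2 * C)) := by
    rw [hy]
    field_simp
    ring
  rwa [e] at h3

/-- **McDiarmid's inequality**, lower tail -/
theorem mcd_lower (f : (V → α) → ℝ) (c : V → ℝ)
    (hc : ∀ v ω ω', (∀ u, u ≠ v → ω u = ω' u) → |f ω - f ω'| ≤ c v) (C t : ℝ)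
    (hC : ∑ v, c v ^ 2 ≤ C) (hC0 : 0 < C) (ht : 0 ≤ t) (P : (V → α) → Prop) [DecidablePred P]
    (hP : ∀ ω, P ω → f ω ≤ mean f - t) :
    ((Finset.univ.filter P).card : ℝ) ≤
      Real.exp (-(t ^ 2 / (2 * C))) * Fintype.card (V → α) := by
  refine mcd_upper (fun ω => - f ω) c ?_ C t hC hC0 ht P ?_
  · intro v ω ω' h
    rw [neg_sub_neg, abs_sub_comm]
    exact hc v ω ω' h
  · intro ω hω
    rw [mean_neg]
    linarith [hP ω hω]

/-- **McDiarmid's inequality**, two-sided -/
theorem mcd_abs (f : (V → α) → ℝ) (c : V → ℝ)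
    (hc : ∀ v ω ω', (∀ u, u ≠ v → ω u = ω' u) → |f ω - f ω'| ≤ c v) (C t : ℝ)
    (hC : ∑ v, c v ^ 2 ≤ C) (hC0 : 0 < C) (ht : 0 ≤ t) (P : (V → α) → Prop) [DecidablePred P]
    (hP : ∀ ω, P ω → t ≤ |f ω - mean f|) :
    ((Finset.univ.filter P).card : ℝ) ≤
      2 * Real.exp (-(t ^ 2 / (2 * C))) * Fintype.card (V → α) := by
  classical
  have h1 := mcd_upper f c hc C t hC hC0 ht (fun ω => mean f + t ≤ f ω) fun _ h => h
  have h2 := mcd_lower f c hc C t hC hC0 ht (fun ω => f ω ≤ mean f - t) fun _ h => h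
  have h3 : Finset.univ.filter P ⊆ Finset.univ.filter (fun ω => mean f + t ≤ f ω) ∪
      Finset.univ.filter (fun ω => f ω ≤ mean f - t) := by
    intro ω hω
    have h4 := hP ω (Finset.mem_filter.1 hω).2
    rw [Finset.mem_union, Finset.mem_filter, Finset.mem_filter]
    rcases le_abs.1 h4 with h | h
    · left
      exact ⟨Finset.mem_univ _, by linarith⟩
    · right
      exact ⟨Finset.mem_univ _, by linarith⟩
  have h4 : ((Finset.univ.filter P).card : ℝ) ≤
      ((Finset.univ.filter (fun ω => mean f + t ≤ f ω)).card : ℝ) +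
        (Finset.univ.filter (fun ω => f ω ≤ mean f - t)).card := by
    exact_mod_cast (Finset.card_le_card h3).trans (Finset.card_union_le _ _)
  linarith

/-! ### Sums of independent indicators -/

variable [DecidableEq α]

/-- the number of coordinates with value in the prescribed set -/
def cnt (B : V → Finset α) (ω : V → α) : ℕ := (Finset.univ.filter fun v => ω v ∈ B v).card

/-- its mean -/
noncomputable def cmu (B : V → Finset α) : ℝ := ∑ v, ((B v).card : ℝ) / Fintype.card α

theorem cmu_nonneg (B : V → Finset α) : 0 ≤ cmu B := by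
  unfold cmu
  positivity

theorem mgf_cnt (B : V → Finset α) (y : ℝ) :
    ∑ ω : V → α, Real.exp (y * cnt B ω) ≤ (Fintype.card (V → α) : ℝ) *
      Real.exp ((Real.exp y - 1) * cmu B) := by
  have hN0 : (0 : ℝ) < Fintype.card α := by exact_mod_cast Fintype.card_pos
  have h1 : ∀ ω : V → α, Real.exp (y * cnt B ω) =
      ∏ v, (if ω v ∈ B v then Real.exp y else 1) := by
    intro ω
    rw [Finset.prod_ite, Finset.prod_const, Finset.prod_const_one, mul_one, ← Real.exp_nat_mul,
      cnt, mul_comm]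
  have h2 : ∀ v, ∑ a, (if a ∈ B v then Real.exp y else 1) =
      (Fintype.card α : ℝ) * (1 + (Real.exp y - 1) * ((B v).card / Fintype.card α)) := by
    intro v
    have e : ∀ a, (if a ∈ B v then Real.exp y else 1) = 1 + (if a ∈ B v then Real.exp y - 1 else 0) := by
      intro a
      split_ifs <;> ring
    rw [Finset.sum_congr rfl fun a _ => e a, Finset.sum_add_distrib, Finset.sum_const,
      Finset.card_univ, nsmul_eq_mul, mul_one, Finset.sum_ite_mem, Finset.univ_inter,
      Finset.sum_const, nsmul_eq_mul]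
    field_simp
  calc ∑ ω : V → α, Real.exp (y * cnt B ω)
      = ∑ ω : V → α, ∏ v, (if ω v ∈ B v then Real.exp y else 1) :=
        Finset.sum_congr rfl fun ω _ => h1 ω
    _ = ∏ v, ∑ a, (if a ∈ B v then Real.exp y else 1) := by
        rw [Finset.prod_univ_sum, Fintype.piFinset_univ]
    _ = ∏ v, ((Fintype.card α : ℝ) * (1 + (Real.exp y - 1) * ((B v).card / Fintype.card α))) :=
        Finset.prod_congr rfl fun v _ => h2 v
    _ = (Fintype.card (V → α) : ℝ) * ∏ v, (1 + (Real.exp y - 1) * ((B v).card / Fintype.card α)) := by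
        rw [Finset.prod_mul_distrib, Finset.prod_const, Finset.card_univ, Fintype.card_fun]
        push_cast
        rfl
    _ ≤ (Fintype.card (V → α) : ℝ) * ∏ v, Real.exp ((Real.exp y - 1) *
          ((B v).card / Fintype.card α)) := by
        refine mul_le_mul_of_nonneg_left (Finset.prod_le_prod ?_ ?_)
          (card_pos' (V := V) (α := α)).le
        · intro v _
          have h3 : ((B v).card : ℝ) / Fintype.card α ≤ 1 := by
            rw [div_le_one hN0]
            exact_mod_cast Finset.card_le_univ _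
          have h4 : (0 : ℝ) ≤ (B v).card / Fintype.card α := by positivity
          have h5 := Real.exp_pos y
          nlinarith
        · intro v _
          rw [add_comm]
          exact Real.add_one_le_exp _
    _ = _ := by
        rw [← Real.exp_sum, cmu, Finset.mul_sum]

/-- upper tail: at least `2 μ + t` -/
theorem count_upper (B : V → Finset α) (m t : ℝ) (hm : cmu B ≤ m) (P : (V → α) → Prop)
    [DecidablePred P] (hP : ∀ ω, P ω → 2 * m + t ≤ cnt B ω) :
    ((Finset.univ.filter P).card : ℝ) ≤ Real.exp (-t) * Fintype.card (V → α) := by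
  have h1 := mgf_cnt B 1
  have h2 := markov (fun ω => (cnt B ω : ℝ)) 1 (2 * m + t) _ h1 P fun ω hω => by
    rw [one_mul]; exact hP ω hω
  refine h2.trans (mul_le_mul_of_nonneg_right (Real.exp_le_exp.2 ?_)
    (card_pos' (V := V) (α := α)).le)
  have h3 : Real.exp 1 < 3 := by
    have := Real.exp_one_lt_d9
    linarith
  have h4 := cmu_nonneg B
  have h5 : (Real.exp 1 - 1) * cmu B ≤ 2 * cmu B := by nlinarith
  linarith

/-- lower tail: at most `μ / 2 - t` -/
theorem count_lower (B : V → Finset α) (m t : ℝ) (hm : m ≤ cmu B) (hm0 : 0 ≤ m)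
    (P : (V → α) → Prop) [DecidablePred P] (hP : ∀ ω, P ω → (cnt B ω : ℝ) ≤ m / 2 - t) :
    ((Finset.univ.filter P).card : ℝ) ≤ Real.exp (-(m / 8 + t)) * Fintype.card (V → α) := by
  have h1 := mgf_cnt B (-1)
  have h2 := markov (fun ω => (cnt B ω : ℝ)) (-1) (-(m / 2 - t)) _ h1 P fun ω hω => by
    have := hP ω hω
    linarith
  refine h2.trans (mul_le_mul_of_nonneg_right (Real.exp_le_exp.2 ?_)
    (card_pos' (V := V) (α := α)).le)
  have h3 : Real.exp (-1) ≤ 3 / 8 := by
    rw [Real.exp_neg, inv_le_comm₀ (Real.exp_pos _) (by norm_num)]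
    have := Real.exp_one_gt_d9
    norm_num
    linarith
  have h5 : (Real.exp (-1) - 1) * cmu B ≤ -(5 / 8) * m := by
    have h6 : (Real.exp (-1) - 1) ≤ -(5 / 8) := by linarith
    have h7 : (Real.exp (-1) - 1) * cmu B ≤ -(5 / 8) * cmu B :=
      mul_le_mul_of_nonneg_right h6 (cmu_nonneg B)
    linarith
  linarith

end many

section lll

/-- **Lovasz local lemma** with a summation condition, finite version. -/
theorem lll_sum {V α ι : Type*} [Fintype V] [DecidableEq V] [Fintype α] [DecidableEq α]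
    [Nonempty α] [Fintype ι] (A : ι → Finset (V → α)) (W : ι → Finset V)
    (hA : ∀ i, ∀ ω ω' : V → α, (∀ v ∈ W i, ω v = ω' v) → ω ∈ A i → ω' ∈ A i)
    (x : ι → ℝ) (σ : ℝ) (hx0 : ∀ i, 0 ≤ x i) (hx1 : ∀ i, x i ≤ 1 / 2)
    (hσ : ∀ v, ∑ j ∈ Finset.univ.filter (fun j => v ∈ W j), x j ≤ σ)
    (hP : ∀ i, ((A i).card : ℝ) ≤
      x i * Real.exp (-(2 * σ * (W i).card)) * Fintype.card (V → α)) :
    ∃ ω : V → α, ∀ i, ω ∉ A i := by
  classical
  have hex : ∀ t : ℝ, 0 ≤ t → t ≤ 1 / 2 → Real.exp (-(2 * t)) ≤ 1 - t := by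
    intro t ht ht2
    have h1 : 2 * t + 1 ≤ Real.exp (2 * t) := Real.add_one_le_exp _
    rw [Real.exp_neg]
    have h2 : 0 < 2 * t + 1 := by linarith
    have h3 : (Real.exp (2 * t))⁻¹ ≤ (2 * t + 1)⁻¹ := inv_anti₀ h2 h1
    refine h3.trans ?_
    rw [inv_le_iff_one_le_mul₀ h2]
    nlinarith
  refine Common_LLL.lll_finite A W hA x hx0 (fun i => lt_of_le_of_lt (hx1 i) (by norm_num)) ?_
  intro i
  refine (hP i).trans (mul_le_mul_of_nonneg_right (mul_le_mul_of_nonneg_left ?_ (hx0 i))
    (Nat.cast_nonneg _))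
  set Γ : Finset ι := Finset.univ.filter (fun j => j ≠ i ∧ ¬ Disjoint (W j) (W i)) with hΓ
  have h2 : ∏ j ∈ Γ, Real.exp (-(2 * x j)) ≤ ∏ j ∈ Γ, (1 - x j) :=
    Finset.prod_le_prod (fun j _ => (Real.exp_pos _).le) (fun j _ => hex _ (hx0 _) (hx1 _))
  refine le_trans ?_ h2
  rw [← Real.exp_sum, Real.exp_le_exp, Finset.sum_neg_distrib, neg_le_neg_iff, ← Finset.mul_sum,
    mul_assoc]
  refine mul_le_mul_of_nonneg_left ?_ (by norm_num)
  calc ∑ j ∈ Γ, x j ≤ ∑ j ∈ Γ, ∑ v ∈ W i, (if v ∈ W j then x j else 0) := by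
        refine Finset.sum_le_sum fun j hj => ?_
        have hj' := (Finset.mem_filter.1 hj).2.2
        rw [Finset.not_disjoint_iff] at hj'
        obtain ⟨v, hv1, hv2⟩ := hj'
        calc x j = (if v ∈ W j then x j else 0) := by rw [if_pos hv1]
          _ ≤ _ := Finset.single_le_sum
            (f := fun v : V => if v ∈ W j then x j else 0)
            (fun w _ => by split_ifs; exacts [hx0 _, le_rfl]) hv2
    _ = ∑ v ∈ W i, ∑ j ∈ Γ, (if v ∈ W j then x j else 0) := Finset.sum_comm
    _ ≤ ∑ v ∈ W i, σ := by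
        refine Finset.sum_le_sum fun v _ => ?_
        refine le_trans ?_ (hσ v)
        have e : ∑ j ∈ Finset.univ.filter (fun j => v ∈ W j), x j =
            ∑ j, (if v ∈ W j then x j else 0) := Finset.sum_filter _ _
        rw [e]
        refine Finset.sum_le_sum_of_subset_of_nonneg (Finset.subset_univ _) fun j _ _ => ?_
        split_ifs
        · exact hx0 _
        · exact le_rfl
    _ = σ * (W i).card := by rw [Finset.sum_const, nsmul_eq_mul, mul_comm]

end lll

end Pool.Agent.Helper13_Conc
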