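import Mathlib

/-!
# Number of linked sets (helper13, after Helper33_FPP/Animals)

In a graph with at most `d` neighbours at every vertex, at most `d ^ (2 n)` connected sets of
`n + 1` vertices contain a given vertex; hence `∑ y ^ |S| ≤ 2 y` over such sets if `2 d² y ≤ 1`.
-/

set_option autoImplicit false
set_option linter.unusedVariables false
set_option linter.unusedSectionVars false

namespace Pool.Agent.Helper13_Conc

open Finset

variable {V : Type*} [DecidableEq V] (G : SimpleGraph V) (nb : V → Finset V)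

/-- Vertex lists of walks with `m` steps from `x`. -/
def Wk : ℕ → V → Finset (List V)
  | 0, x => {[x]}
  | (m + 1), x => (nb x).biUnion (fun v => (Wk m v).image (fun l => x :: l))

lemma card_Wk {d : ℕ} (hd : ∀ x, (nb x).card ≤ d) : ∀ (m : ℕ) (x : V), (Wk nb m x).card ≤ d ^ m
  | 0, x => by simp [Wk]
  | (m + 1), x => by
    unfold Wk
    calc _ ≤ ∑ v ∈ nb x, ((Wk nb m v).image (fun l => x :: l)).card := Finset.card_biUnion_le
      _ ≤ ∑ v ∈ nb x, d ^ m := Finset.sum_le_sum fun v _ =>
          Finset.card_image_le.trans (card_Wk hd m v)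
      _ = (nb x).card * d ^ m := by simp
      _ ≤ d * d ^ m := Nat.mul_le_mul_right _ (hd x)
      _ = d ^ (m + 1) := by ring

lemma mem_Wk (hnb : ∀ x y, G.Adj x y → y ∈ nb x) {x y : V} (q : G.Walk x y) :
    q.support ∈ Wk nb q.length x := by
  induction q with
  | nil => simp [Wk]
  | @cons a b c h q ih =>
    simp only [SimpleGraph.Walk.support_cons, SimpleGraph.Walk.length_cons]
    unfold Wk
    rw [Finset.mem_biUnion]
    refine ⟨b, hnb _ _ h, ?_⟩
    rw [Finset.mem_image]
    exact ⟨q.support, ih, rfl⟩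

/-- A proper subset of a connected set is adjacent to a further vertex. -/
lemma exists_adj_lk {S A : Finset V} {z : V} (hz : z ∈ A) (hAS : A ⊆ S) (hne : A.card < S.card)
    (hS : (G.induce (S : Set V)).Preconnected) : ∃ u ∈ A, ∃ v ∈ S, v ∉ A ∧ G.Adj u v := by
  obtain ⟨s, hs, hsA⟩ : ∃ s ∈ S, s ∉ A := by
    by_contra h
    push Not at h
    exact absurd (Finset.card_le_card (fun s hs => h s hs : S ⊆ A)) (by omega)
  obtain ⟨p⟩ := hS ⟨z, hAS hz⟩ ⟨s, hs⟩
  obtain ⟨d, -, hd1, hd2⟩ := p.exists_boundary_dart {v | v.1 ∈ A} hz hsA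
  exact ⟨d.fst.1, hd1, d.snd.1, d.snd.2, hd2, d.adj⟩

lemma exists_walk_lk {S : Finset V} {z : V} (hz : z ∈ S)
    (hS : (G.induce (S : Set V)).Preconnected) (j : ℕ) (hj : j < S.card) :
    ∃ q : G.Walk z z, q.length = 2 * j ∧ q.support.toFinset ⊆ S ∧ q.support.toFinset.card = j + 1 := by
  induction j with
  | zero => exact ⟨.nil, rfl, by simpa using hz, by simp⟩
  | succ j ih =>
    obtain ⟨q, h1, h2, h3⟩ := ih (by omega)
    obtain ⟨u, hu, v, hv, hvA, huv⟩ := exists_adj_lk G (A := q.support.toFinset) (z := z) (by simp) h2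
      (by omega) hS
    have hu' : u ∈ q.support := by simpa using hu
    refine ⟨(q.takeUntil u hu').append (.cons huv (.cons huv.symm (q.dropUntil u hu'))), ?_, ?_, ?_⟩
    · have := congrArg SimpleGraph.Walk.length (q.take_spec hu')
      rw [SimpleGraph.Walk.length_append] at this
      simp only [SimpleGraph.Walk.length_append, SimpleGraph.Walk.length_cons]
      omega
    all_goals
      have hsup : ((q.takeUntil u hu').append (.cons huv (.cons huv.symm
          (q.dropUntil u hu')))).support.toFinset = insert v q.support.toFinset := by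
        ext w
        have h4 : w ∈ q.support ↔ w ∈ (q.takeUntil u hu').support ∨ w ∈ (q.dropUntil u hu').support := by
          rw [← SimpleGraph.Walk.mem_support_append_iff, q.take_spec hu']
        simp only [List.mem_toFinset, SimpleGraph.Walk.mem_support_append_iff,
          SimpleGraph.Walk.support_cons, List.mem_cons, Finset.mem_insert, h4]
        have h5 : u ∈ (q.takeUntil u hu').support := SimpleGraph.Walk.end_mem_support _
        constructor
        · rintro (h | rfl | rfl | h)
          · exact Or.inr (Or.inl h)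
          · exact Or.inr (Or.inl h5)
          · exact Or.inl rfl
          · exact Or.inr (Or.inr h)
        · rintro (rfl | h | h)
          · exact Or.inr (Or.inr (Or.inl rfl))
          · exact Or.inl h
          · exact Or.inr (Or.inr (Or.inr h))
      rw [hsup]
    · exact Finset.insert_subset hv h2
    · rw [Finset.card_insert_of_notMem hvA, h3]

/-- **Linked sets**: at most `d ^ (2 n)` connected sets of `n + 1` vertices contain `z`. -/
theorem linked_count {d : ℕ} (hnb : ∀ x y, G.Adj x y → y ∈ nb x) (hd : ∀ x, (nb x).card ≤ d)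
    (n : ℕ) (z : V) (𝒜 : Finset (Finset V))
    (h : ∀ S ∈ 𝒜, z ∈ S ∧ S.card = n + 1 ∧ (G.induce (S : Set V)).Preconnected) :
    𝒜.card ≤ d ^ (2 * n) := by
  have hsub : 𝒜 ⊆ (Wk nb (2 * n) z).image List.toFinset := by
    intro S hS
    obtain ⟨h1, h2, h3⟩ := h S hS
    obtain ⟨q, hq1, hq2, hq3⟩ := exists_walk_lk G h1 h3 n (by omega)
    rw [Finset.mem_image]
    refine ⟨q.support, hq1 ▸ mem_Wk G nb hnb q, ?_⟩
    exact Finset.eq_of_subset_of_card_le hq2 (by omega)
  calc 𝒜.card ≤ ((Wk nb (2 * n) z).image List.toFinset).card := Finset.card_le_card hsub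
    _ ≤ (Wk nb (2 * n) z).card := Finset.card_image_le
    _ ≤ d ^ (2 * n) := card_Wk nb hd _ _

/-- **Weighted sum over linked sets** containing `z`. -/
theorem linked_sum {d : ℕ} (hnb : ∀ x y, G.Adj x y → y ∈ nb x) (hd : ∀ x, (nb x).card ≤ d)
    (y : ℝ) (hy0 : 0 ≤ y) (hy : 2 * (d : ℝ) ^ 2 * y ≤ 1) (z : V) (𝒜 : Finset (Finset V))
    (h : ∀ S ∈ 𝒜, z ∈ S ∧ (G.induce (S : Set V)).Preconnected) :
    ∑ S ∈ 𝒜, y ^ S.card ≤ 2 * y := by
  classical
  set M := 𝒜.sup Finset.card with hM
  have h1 : ∑ S ∈ 𝒜, y ^ S.card ≤ ∑ n ∈ Finset.range (M + 1), ((d : ℝ) ^ 2 * y) ^ n * y := by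
    have e : ∑ S ∈ 𝒜, y ^ S.card =
        ∑ n ∈ Finset.range (M + 1), ∑ S ∈ 𝒜.filter (fun S => S.card = n + 1), y ^ S.card := by
      rw [← Finset.sum_fiberwise_of_maps_to (s := 𝒜) (t := Finset.range (M + 1))
        (g := fun S => S.card - 1)]
      · refine Finset.sum_congr rfl fun n _ => ?_
        congr 1
        ext S
        simp only [Finset.mem_filter, and_congr_right_iff]
        intro hS
        have : 0 < S.card := Finset.card_pos.2 ⟨z, (h S hS).1⟩
        omega
      · intro S hS
        rw [Finset.mem_range]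
        have := Finset.le_sup (f := Finset.card) hS
        omega
    rw [e]
    refine Finset.sum_le_sum fun n _ => ?_
    have h2 := linked_count G nb hnb hd n z (𝒜.filter (fun S => S.card = n + 1)) (by
      intro S hS
      obtain ⟨h3, h4⟩ := Finset.mem_filter.1 hS
      exact ⟨(h S h3).1, h4, (h S h3).2⟩)
    calc ∑ S ∈ 𝒜.filter (fun S => S.card = n + 1), y ^ S.card
        = ∑ _S ∈ 𝒜.filter (fun S => S.card = n + 1), y ^ (n + 1) :=
          Finset.sum_congr rfl fun S hS => by rw [(Finset.mem_filter.1 hS).2]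
      _ = ((𝒜.filter (fun S => S.card = n + 1)).card : ℝ) * y ^ (n + 1) := by
          rw [Finset.sum_const, nsmul_eq_mul]
      _ ≤ ((d : ℝ) ^ (2 * n)) * y ^ (n + 1) :=
          mul_le_mul_of_nonneg_right (by exact_mod_cast h2) (by positivity)
      _ = ((d : ℝ) ^ 2 * y) ^ n * y := by rw [pow_mul, mul_pow, pow_succ]; ring
  refine h1.trans ?_
  rw [← Finset.sum_mul]
  refine mul_le_mul_of_nonneg_right ?_ hy0
  set q : ℝ := (d : ℝ) ^ 2 * y with hq
  have hq0 : 0 ≤ q := by positivity
  have hq1 : q ≤ 1 / 2 := by linarith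
  have h3 : ∀ m : ℕ, ∑ n ∈ Finset.range m, q ^ n ≤ 2 - 2 * q ^ m := by
    intro m
    induction m with
    | zero => simp
    | succ m ih =>
      rw [Finset.sum_range_succ, pow_succ]
      have : 0 ≤ q ^ m := by positivity
      nlinarith
  have h4 := h3 (M + 1)
  have : 0 ≤ q ^ (M + 1) := by positivity
  linarith

end Pool.Agent.Helper13_Conc
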